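import Mathlib
import Pool.Agent.N848.LT.Stm

/-!
# Project LT (helper848), leaf UP: going up (helper413)
-/

set_option autoImplicit false

namespace Pool.Agent.N413.LTUP

open NumberField IsDedekindDomain Module Pool.Agent.N848.LT

theorem exists_e {F K : Type} [Field F] [NumberField F] [Field K] [NumberField K] [Algebra F K]
    (u : HeightOneSpectrum (𝓞 F)) (v : HeightOneSpectrum (𝓞 K)) (h : Ab v u) :
    ∃ e : ℕ, e ≠ 0 ∧ ∀ x : F, v.valuation K (algebraMap F K x) = u.valuation F x ^ e := by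
  haveI : v.asIdeal.LiesOver u.asIdeal := ⟨h.symm⟩
  exact ⟨u.asIdeal.ramificationIdx' v.asIdeal,
    Ideal.IsDedekindDomain.ramificationIdx'_ne_zero_of_liesOver v.asIdeal u.ne_bot,
    fun x => (HeightOneSpectrum.valuation_liesOver K u v x).symm⟩

theorem t_UP : S_UP := by
  intro F K _ _ _ _ _ u v h
  obtain ⟨e, he, hv⟩ := exists_e u v h
  have h1 : ∀ x y : F, u.valuation F x ≤ u.valuation F y →
      v.valuation K (algebraMap F K x) ≤ v.valuation K (algebraMap F K y) := by
    intro x y hxy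
    rw [hv, hv]
    exact pow_le_pow_left₀ zero_le' hxy e
  have h2 : ∀ x : F, u.valuation F x = 1 ↔ v.valuation K (algebraMap F K x) = 1 := by
    intro x
    rw [hv]
    exact (pow_eq_one_iff_of_nonneg zero_le' he).symm
  have h3 : ∀ x : F, u.valuation F x ≤ 1 ↔ v.valuation K (algebraMap F K x) ≤ 1 := by
    intro x
    rw [hv]
    exact (pow_le_one_iff_of_nonneg zero_le' he).symm
  refine ⟨h1, h2, h3, ?_⟩
  rintro x ⟨y, hy1, hy2⟩
  refine ⟨algebraMap F K y, ?_, ?_⟩
  · rw [← map_pow, ← map_mul]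
    exact (h2 _).1 hy1
  · have h4 := h1 _ _ hy2
    rw [map_sub, map_mul, map_pow, map_one, map_ofNat] at h4
    exact h4

end Pool.Agent.N413.LTUP
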